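import Pool.Agent.Helper51.REC.Goals1
import Pool.Agent.Helper42.PP.NZY

/-!
# Project REC (MP_fc6b1e_nt): packet H_UNI, the `S`-units of `E` as a module
-/

set_option autoImplicit false

namespace Pool.Agent.Helper90.REC

open NumberField Module IsDedekindDomain Pool.Agent.Helper51.RP Pool.Agent.Helper42.PP
open Pool.Agent.Helper51.REC
open Pool.Agent.Helper42.RD (exists_bel)
open Pool.Agent.Helper40.RS (bel)
open Pool.Agent.Helper40.RD (bel_of_above valW)

section primes

variable {F E : Type} [Field F] [NumberField F] [Field E] [NumberField E] [Algebra F E]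

theorem val_one_iff [IsGalois F E] (W : HeightOneSpectrum (𝓞 E)) (x : F) :
    W.valuation E (algebraMap F E x) = 1 ↔ (bel F W).valuation F x = 1 := by
  rw [valW W x]
  have he : (bel F W).asIdeal.ramificationIdx' W.asIdeal ≠ 0 := by
    rw [Ideal.ramificationIdx'_eq_ramificationIdx (bel F W).asIdeal W.asIdeal (bel F W).ne_bot]
    intro h0
    have h1 := Pool.Agent.Helper40.RS.efg (K := F) W
    rw [h0] at h1
    have h2 := finrank_pos (R := F) (M := E)
    simp at h1
    omega
  exact _root_.pow_eq_one_iff_of_nonneg zero_le' he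

theorem mem_upS {S : Set (HeightOneSpectrum (𝓞 F))} {w : HeightOneSpectrum (𝓞 E)} :
    w ∈ upS E S ↔ bel F w ∈ S := by
  constructor
  · rintro ⟨v, hv, h⟩
    rwa [bel_of_above h]
  · intro h
    exact ⟨bel F w, h, rfl⟩

theorem unit_inc [IsGalois F E] (S : Set (HeightOneSpectrum (𝓞 F))) (x : Fˣ) :
    inc F E x ∈ (upS E S).unit E ↔ x ∈ S.unit F := by
  constructor
  · intro h v hv
    obtain ⟨W, hW⟩ := exists_bel (M₁ := E) v
    have h1 : W ∉ upS E S := by rw [mem_upS, hW]; exact hv
    have h2 := h W h1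
    have h3 := (val_one_iff (F := F) W (x : F)).1 h2
    rw [hW] at h3
    exact h3
  · intro h W hW
    rw [mem_upS] at hW
    exact (val_one_iff (F := F) W (x : F)).2 (h _ hW)

theorem unit_act [IsGalois F E] (S : Set (HeightOneSpectrum (𝓞 F))) (σ : E ≃ₐ[F] E) (u : Eˣ)
    (hu : u ∈ (upS E S).unit E) : act σ u ∈ (upS E S).unit E := by
  intro W hW
  obtain ⟨W', h1, h2⟩ := exists_pull (K := F) W σ
  have h3 : W' ∉ upS E S := by
    rw [mem_upS, h2, ← mem_upS]; exact hW
  have h4 : W.valuation E (σ (u : E)) = 1 := by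
    rw [h1]; exact hu W' h3
  exact h4

theorem act_act (σ τ : E ≃ₐ[F] E) (u : Eˣ) : act σ (act τ u) = act (σ * τ) u := rfl

/-- The action on the `S`-units. -/
noncomputable def sU [IsGalois F E] (S : Set (HeightOneSpectrum (𝓞 F))) (σ : E ≃ₐ[F] E) :
    (upS E S).unit E ≃* (upS E S).unit E where
  toFun u := ⟨act σ u, unit_act S σ u u.2⟩
  invFun u := ⟨act σ⁻¹ u, unit_act S σ⁻¹ u u.2⟩
  left_inv u := by
    apply Subtype.ext
    show act σ⁻¹ (act σ u) = u
    rw [act_act, inv_mul_cancel]
    rfl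
  right_inv u := by
    apply Subtype.ext
    show act σ (act σ⁻¹ u) = u
    rw [act_act, mul_inv_cancel]
    rfl
  map_mul' u v := Subtype.ext (map_mul (act σ) _ _)

theorem sU_coe [IsGalois F E] (S : Set (HeightOneSpectrum (𝓞 F))) (σ : E ≃ₐ[F] E)
    (u : (upS E S).unit E) :
    (((sU S σ u : (upS E S).unit E) : Eˣ) : E) = σ ((u : Eˣ) : E) := rfl

theorem sU_pow [IsGalois F E] (S : Set (HeightOneSpectrum (𝓞 F))) (σ : E ≃ₐ[F] E) (n : ℕ)
    (u : (upS E S).unit E) :
    ((((sU S σ ^ n : MulAut ((upS E S).unit E)) u : (upS E S).unit E) : Eˣ) : E) =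
      (σ ^ n) ((u : Eˣ) : E) := by
  induction n generalizing u with
  | zero => rfl
  | succ n ih =>
    rw [pow_succ, pow_succ]
    have h1 := ih (sU S σ u)
    rw [sU_coe] at h1
    exact h1

theorem pow_b {p : ℕ} {ε : F} {β : Fˣ} {b : E} {σ : E ≃ₐ[F] E} (hk : Kum p ε β b σ) (hp : p ≠ 0) :
    b ≠ 0 := by
  intro h
  have h1 := hk.root
  rw [h, zero_pow hp] at h1
  exact β.ne_zero ((map_eq_zero (algebraMap F E)).1 h1.symm)

theorem ord_sigma {p : ℕ} [hp : Fact p.Prime] {ε : F} {β : Fˣ} {b : E} {σ : E ≃ₐ[F] E}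
    (hε : IsPrimitiveRoot ε p) (hk : Kum p ε β b σ) : orderOf σ = p := by
  have := hk.gal
  apply orderOf_eq_prime
  · have h1 : Nat.card (E ≃ₐ[F] E) = p := by
      rw [IsGalois.card_aut_eq_finrank, hk.deg]
    rw [← h1]
    exact pow_card_eq_one'
  · intro h
    have h1 := hk.act
    rw [h] at h1
    have h2 : algebraMap F E ε * b = 1 * b := by rw [one_mul]; exact h1.symm
    have h3 := mul_right_cancel₀ (pow_b hk hp.out.ne_zero) h2
    rw [← map_one (algebraMap F E)] at h3
    have h4 := (algebraMap F E).injective h3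
    exact hε.ne_one hp.out.one_lt h4

theorem fixed_mem {p : ℕ} [hp : Fact p.Prime] {ε : F} {β : Fˣ} {b : E} {σ : E ≃ₐ[F] E}
    (hε : IsPrimitiveRoot ε p) (hk : Kum p ε β b σ) (x : E) (hx : σ x = x) :
    ∃ y : F, algebraMap F E y = x := by
  have := hk.gal
  have h1 : orderOf σ = finrank F E := by rw [ord_sigma hε hk, hk.deg]
  have h2 : ∀ i : ℕ, (σ ^ i) x = x := by
    intro i
    induction i with
    | zero => rfl
    | succ i ih =>
      rw [pow_succ]
      show (σ ^ i) (σ x) = x
      rw [hx, ih]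
  have h3 : ∀ g : E ≃ₐ[F] E, g x = x := by
    intro g
    obtain ⟨i, -, hi⟩ := exists_pow σ h1 g
    rw [← hi]; exact h2 i
  exact (IsGalois.mem_range_algebraMap_iff_fixed (F := F) (E := E) x).2 h3

end primes

theorem two_rank (K : Type) [Field K] [NumberField K] [IsTotallyComplex K] :
    2 * (Units.rank K + 1) = finrank ℚ K := by
  have h1 := IsTotallyComplex.finrank K
  have h2 := InfinitePlace.card_eq_nrRealPlaces_add_nrComplexPlaces K
  rw [IsTotallyComplex.nrRealPlaces_eq_zero, zero_add] at h2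
  have h3 : 0 < Fintype.card (InfinitePlace K) := Fintype.card_pos
  unfold Units.rank
  omega

/-- **H_UNI**. -/
theorem h_uni (h1 : H_RNK) (h2 : H_SPL) (h3 : H_CNT) : Pool.Agent.Helper51.REC.H_UNI := by
  intro p hp F E _ _ _ _ _ ε S β b σ hs hk hL
  have := hk.gal
  have hpr := hp.out
  have hcF : IsTotallyComplex F := hs.cplx
  have hcE : IsTotallyComplex E := isTotallyComplex_of_algebra F E
  obtain ⟨hfin, hcard⟩ := h3 F E S hs.fin (by
    intro v hv w hw
    obtain ⟨y, hy⟩ := hL
    exact h2 p F E ε β b σ hs.prim hk v ⟨y, hy v hv⟩ w hw)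
  obtain ⟨hfgE, hrkE⟩ := h1 E (upS E S) hfin
  obtain ⟨hfgF, hrkF⟩ := h1 F S hs.fin
  have hfix : ∀ u, u ∈ fixG (sU S σ) ↔ ∃ x ∈ S.unit F, inc F E x = (u : Eˣ) := by
    intro u
    constructor
    · intro hu
      have hu1 : sU S σ u = u := hu
      have hu2 : σ ((u : Eˣ) : E) = ((u : Eˣ) : E) := by
        rw [← sU_coe, hu1]
      obtain ⟨y, hy⟩ := fixed_mem hs.prim hk _ hu2
      have hy0 : y ≠ 0 := by
        rintro rfl
        rw [map_zero] at hy
        exact (u : Eˣ).ne_zero hy.symm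
      have hyu : inc F E (Units.mk0 y hy0) = (u : Eˣ) := Units.ext hy
      refine ⟨Units.mk0 y hy0, ?_, hyu⟩
      rw [← unit_inc (E := E), hyu]
      exact u.2
    · rintro ⟨x, hx, hxu⟩
      show sU S σ u = u
      apply Subtype.ext
      apply Units.ext
      rw [sU_coe, ← hxu]
      exact σ.commutes _
  refine ⟨sU S σ, fun u => sU_coe S σ u, ?_, hfgE, hfix, ?_⟩
  · intro u
    apply Subtype.ext
    apply Units.ext
    rw [sU_pow]
    have h4 : σ ^ p = 1 := by
      have h5 := pow_orderOf_eq_one σ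
      rwa [ord_sigma hs.prim hk] at h5
    rw [h4]
    rfl
  · refine ⟨_, rfl, ?_⟩
    -- the isomorphism
    let f : S.unit F →* fixG (sU S σ) :=
      { toFun := fun x => ⟨⟨inc F E x, (unit_inc (E := E) S x).2 x.2⟩,
          (hfix _).2 ⟨x, x.2, rfl⟩⟩
        map_one' := Subtype.ext (Subtype.ext (map_one (inc F E)))
        map_mul' := fun x y => Subtype.ext (Subtype.ext (map_mul (inc F E) _ _)) }
    have hf : Function.Bijective f := by
      constructor
      · intro x y hxy
        have h4 : inc F E x = inc F E y :=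
          congrArg (fun z : fixG (sU S σ) => ((z : (upS E S).unit E) : Eˣ)) hxy
        apply Subtype.ext
        apply Units.ext
        exact (algebraMap F E).injective (congrArg Units.val h4)
      · rintro ⟨u, hu⟩
        obtain ⟨x, hx, hxu⟩ := (hfix u).1 hu
        exact ⟨⟨x, hx⟩, Subtype.ext (Subtype.ext hxu)⟩
    have hrk : finrank ℤ (Additive (fixG (sU S σ))) = finrank ℤ (Additive (S.unit F)) :=
      ((MulEquiv.toAdditive (MulEquiv.ofBijective f hf)).toIntLinearEquiv.finrank_eq).symm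
    rw [hrk, hrkF, hrkE, hcard, hk.deg]
    have e1 := two_rank F
    have e2 := two_rank E
    have e3 : finrank ℚ F * finrank F E = finrank ℚ E := Module.finrank_mul_finrank ℚ F E
    rw [hk.deg, ← e1, ← e2] at e3
    have e4 : Units.rank E + 1 = p * (Units.rank F + 1) := by nlinarith
    have hp1 := hpr.one_lt
    rw [mul_add]
    rw [mul_add, mul_one] at e4
    omega

end Pool.Agent.Helper90.REC
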